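import Pool.Agent.Y811.PC.Stm

/-!
# PC-SEC2: the curve of fixed points when the multiplier is not one
-/

set_option autoImplicit false

namespace Pool.Agent.Y592.PC

open Complex Metric Set Filter Topology Pool.Agent.Y811.PC

theorem t_SEC2 (h1 : S_IFT) (hA : S_ANA) : S_SEC2 := by
  intro d m c₀ z₀ _ _ hfix hmu
  have hG : AnalyticAt ℂ (fun p : ℂ × ℂ => G d m p.1 p.2) (c₀, z₀) := (hA d m c₀ z₀).1
  have hF : AnalyticAt ℂ (fun p : ℂ × ℂ => G d m p.1 p.2 - p.2) (c₀, z₀) := hG.sub analyticAt_snd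
  have hdG : DifferentiableAt ℂ (fun y => G d m c₀ y) z₀ := by
    have h2 : DifferentiableAt ℂ (fun p : ℂ × ℂ => G d m p.1 p.2) (c₀, z₀) :=
      hG.differentiableAt
    have h3 : DifferentiableAt ℂ (fun y : ℂ => ((c₀, y) : ℂ × ℂ)) z₀ :=
      (differentiableAt_const c₀).prodMk differentiableAt_id
    exact DifferentiableAt.comp (g := fun p : ℂ × ℂ => G d m p.1 p.2) z₀ h2 h3
  have hd : deriv (fun y => G d m c₀ y - y) z₀ = mu d m c₀ z₀ - 1 := by
    rw [deriv_fun_sub hdG differentiableAt_fun_id]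
    have h4 : deriv (fun y : ℂ => y) z₀ = 1 := deriv_id z₀
    rw [h4]
    rfl
  obtain ⟨δ, η, y, hδ, _, hy, hy0, hyF, _⟩ := h1 (fun p : ℂ × ℂ => G d m p.1 p.2 - p.2) c₀ z₀ hF
    (by show G d m c₀ z₀ - z₀ = 0; rw [hfix, sub_self])
    (by show deriv (fun y => G d m c₀ y - y) z₀ ≠ 0; rw [hd]; exact sub_ne_zero.mpr hmu)
  have hmem : ∀ t ∈ ball (0 : ℂ) δ, c₀ + t ∈ ball c₀ δ := by
    intro t ht
    rw [mem_ball_zero_iff] at ht
    rw [mem_ball, dist_eq_norm, add_sub_cancel_left]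
    exact ht
  refine ⟨δ, fun t => c₀ + t, fun t => y (c₀ + t), hδ, ?_, ?_, by simp, by simp [hy0], ?_, ?_⟩
  · exact (differentiable_const c₀).add differentiable_id |>.differentiableOn
  · exact hy.comp ((differentiable_const c₀).add differentiable_id).differentiableOn hmem
  · intro t ht
    have h2 := hyF (c₀ + t) (hmem t ht)
    exact sub_eq_zero.mp h2
  · intro t _ ht0 h
    exact ht0 (by simpa using h)

end Pool.Agent.Y592.PC
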